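import Mathlib

set_option autoImplicit false

namespace Pool.Agent.H.MP_f81d0d_gt

open Set Filter Topology Cardinal

theorem line {E : Type} [TopologicalSpace E] [T2Space E] (H : ℤ → ℝ → E)
    (hH : ∀ n, Continuous (H n)) (h1 : ∀ m n s t, H m s = H m t → H n s = H n t → m = n ∨ s = t)
    (N : Finset ℤ) (hN : ∀ n ∉ N, Function.Injective (H n)) (h0 : 0 ∈ N) (A : Set E) (hA : #A < 𝔠)
    (lab : ℝ → ℤ) (hl : ∀ t n, H n t ∈ A ↔ n = lab t) (s t : ℝ) :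
    lab s = lab t ∧ H (lab s) s = H (lab t) t := by
  let ℓ : ℝ → ℤ × A := fun t => (lab t, ⟨H (lab t) t, (hl t _).2 rfl⟩)
  have e1 : ∀ t (a : ℤ × A), ℓ t = a ↔ H a.1 t = a.2 := fun t a => by
    refine ⟨fun h => by rw [← h], fun h => ?_⟩
    have := (hl t a.1).1 (h ▸ a.2.2)
    exact Prod.ext this.symm (Subtype.ext (by simp only [ℓ]; rw [← this, h]))
  have cl : ∀ a, IsClosed {t | ℓ t = a} := fun a => by
    simp only [e1]
    exact isClosed_eq (hH _) continuous_const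
  have hc : #(ℤ × A) < 𝔠 := by
    rw [mk_prod, lift_id, lift_id]
    exact mul_lt_of_lt aleph0_le_continuum (by simpa using aleph0_lt_continuum) hA
  let K : Set ℝ := {t | ¬ ∀ᶠ s in 𝓝 t, ℓ s = ℓ t}
  have Kc : IsClosed K := by
    rw [← isOpen_compl_iff, isOpen_iff_mem_nhds]
    intro t ht
    have ht' : ∀ᶠ s in 𝓝 t, ℓ s = ℓ t := not_not.1 ht
    exact ht'.eventually_nhds.mono fun s hs => not_not.2
      (hs.mono fun u hu => hu.trans hs.self_of_nhds.symm)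
  have c1 : ∀ a b, (∀ t ∈ Ioo a b, t ∉ K) → ∀ x ∈ Icc a b, ∀ y ∈ Icc a b, ℓ x = ℓ y := by
    intro a b h x hx y hy
    rcases (hx.1.trans hx.2).eq_or_lt with rfl | hab
    · rw [le_antisymm hx.2 hx.1, le_antisymm hy.2 hy.1]
    obtain ⟨z, hz⟩ := nonempty_Ioo.2 hab
    have : Icc a b ⊆ {t | ℓ t = ℓ z} := by
      rw [← closure_Ioo hab.ne]
      refine closure_minimal (fun u hu => ?_) (cl _)
      refine isPreconnected_Ioo.induction₂' (fun x y => ℓ x = ℓ y) (fun x hx => ?_)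
        (fun _ _ _ _ _ _ => Eq.trans) hu hz
      exact (eventually_nhdsWithin_of_eventually_nhds (not_not.1 (h x hx))).mono
        fun _ h => ⟨h.symm, h⟩
    exact (this hx).trans (this hy).symm
  have c2' : ∀ p q, p ≤ q → ℓ p ≠ ℓ q → (∃ x ∈ K, x = p ∨ x = q) →
      ∃ a ∈ K, ∃ b ∈ K, p ≤ a ∧ a ≤ b ∧ b ≤ q ∧ ℓ a ≠ ℓ b := by
    intro p q hpq hne ⟨x, hx, hx'⟩
    have hk : IsCompact (Icc p q ∩ K) := isCompact_Icc.inter_right Kc
    have hn : (Icc p q ∩ K).Nonempty := ⟨x, by rcases hx' with rfl | rfl <;> simp [hpq], hx⟩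
    obtain ⟨a, ha⟩ := hk.exists_isLeast hn
    obtain ⟨b, hb⟩ := hk.exists_isGreatest hn
    refine ⟨a, ha.1.2, b, hb.1.2, ha.1.1.1, ha.2 hb.1, hb.1.1.2, fun h => hne ?_⟩
    rw [c1 p a (fun t ht hK => (ha.2 ⟨⟨ht.1.le, ht.2.le.trans ha.1.1.2⟩, hK⟩).not_gt ht.2) p
      ⟨le_rfl, ha.1.1.1⟩ a ⟨ha.1.1.1, le_rfl⟩, h,
      c1 b q (fun t ht hK => (hb.2 ⟨⟨hb.1.1.1.trans ht.1.le, ht.2.le⟩, hK⟩).not_gt ht.1) b
      ⟨le_rfl, hb.1.1.2⟩ q ⟨hb.1.1.2, le_rfl⟩]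
  have c2 : ∀ x ∈ K, ∀ J ∈ 𝓝 x, ∃ a ∈ K, ∃ b ∈ K, a ≤ b ∧ Icc a b ⊆ J ∧ ℓ a ≠ ℓ b := by
    intro x hx J hJ
    obtain ⟨l, r, h2, h3⟩ := mem_nhds_iff_exists_Ioo_subset.1 hJ
    obtain ⟨y, y1, y2⟩ := ((not_eventually.1 hx).and_eventually (Ioo_mem_nhds h2.1 h2.2)).exists
    rcases le_total x y with h | h
    · obtain ⟨a, a1, b, b1, h4, h5, h6, h7⟩ := c2' x y h (Ne.symm y1) ⟨x, hx, .inl rfl⟩
      exact ⟨a, a1, b, b1, h5, fun u hu => h3 ⟨h2.1.trans_le (h4.trans hu.1),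
        (hu.2.trans h6).trans_lt y2.2⟩, h7⟩
    · obtain ⟨a, a1, b, b1, h4, h5, h6, h7⟩ := c2' y x h y1 ⟨x, hx, .inr rfl⟩
      exact ⟨a, a1, b, b1, h5, fun u hu => h3 ⟨y2.1.trans_le (h4.trans hu.1),
        (hu.2.trans h6).trans_lt h2.2⟩, h7⟩
  have c3 : ∀ a ∈ K, ∀ b ∈ K, a ≤ b → ∀ i c, (∀ u ∈ K, u ∈ Icc a b → H i u = c) → ℓ a = ℓ b := by
    intro a ha b hb hab i c h
    have h2 : ∀ u ∈ Icc a b, H i u = c := fun u hu => by
      obtain ⟨p, hp⟩ := ((isCompact_Icc (a := a) (b := u)).inter_right Kc).exists_isGreatest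
        ⟨a, ⟨le_rfl, hu.1⟩, ha⟩
      obtain ⟨q, hq⟩ := ((isCompact_Icc (a := u) (b := b)).inter_right Kc).exists_isLeast
        ⟨b, ⟨hu.2, le_rfl⟩, hb⟩
      have h3 := c1 p q fun v hv hK => (le_total v u).elim
        (fun h4 => (hp.2 ⟨⟨hp.1.1.1.trans hv.1.le, h4⟩, hK⟩).not_gt hv.1)
        fun h4 => (hq.2 ⟨⟨h4, hv.2.le.trans hq.1.1.2⟩, hK⟩).not_gt hv.2
      have hpq := hp.1.1.2.trans hq.1.1.1
      have h4 := (e1 _ _).1 (h3 p ⟨le_rfl, hpq⟩ u ⟨hp.1.1.2, hq.1.1.1⟩)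
      have h5 := (e1 _ _).1 (h3 q ⟨hpq, le_rfl⟩ u ⟨hp.1.1.2, hq.1.1.1⟩)
      have h6 := h p hp.1.2 ⟨hp.1.1.1, hp.1.1.2.trans hu.2⟩
      have h7 := h q hq.1.2 ⟨hu.1.trans hq.1.1.1, hq.1.1.2⟩
      rcases h1 _ _ _ _ (h4.trans h5.symm) (h6.trans h7.symm) with e | e
      · rw [← h6, ← e]
        exact h4.symm
      · rw [le_antisymm (e ▸ hq.1.1.1) hp.1.1.2, h6]
    rcases hab.eq_or_lt with rfl | hab'
    · rfl
    have h3 : ∃ u ∈ Icc a b, lab u = i := by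
      by_contra hn
      push Not at hn
      refine hc.not_ge ((mk_Icc_real hab').ge.trans (mk_le_of_injective
        (f := fun u : Icc a b => ℓ u) fun u v huv => Subtype.ext ?_))
      exact (h1 _ _ _ _ (((e1 _ _).1 rfl).trans ((e1 _ _).1 huv.symm).symm)
        ((h2 _ u.2).trans (h2 _ v.2).symm)).resolve_left (hn _ u.2)
    obtain ⟨u, hu, rfl⟩ := h3
    rw [(e1 a (ℓ u)).2 ((h2 a ⟨le_rfl, hab⟩).trans (h2 u hu).symm),
      (e1 b (ℓ u)).2 ((h2 b ⟨hab, le_rfl⟩).trans (h2 u hu).symm)]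
  have c4 : ∀ x ∈ K, ∀ J ∈ 𝓝 x, ∃ y ∈ K ∩ J, ∃ z ∈ K ∩ J, ∀ i ∈ N, H i y ≠ H i z := by
    intro x hx J hJ
    by_contra hn
    push Not at hn
    obtain ⟨a, ha, b, hb, hab, h2, h3⟩ := c2 x hx _ (interior_mem_nhds.2 hJ)
    have aJ := interior_subset (h2 ⟨le_rfl, hab⟩)
    have bJ := mem_interior_iff_mem_nhds.1 (h2 ⟨hab, le_rfl⟩)
    obtain ⟨i, -, hi⟩ := hn a ⟨ha, aJ⟩ b ⟨hb, mem_of_mem_nhds bJ⟩
    have h4 : ∀ᶠ u in 𝓝 b, ∀ m ∈ N.erase i, H m a ≠ H m u :=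
      (eventually_all_finset _).2 fun m hm => (isOpen_ne_fun continuous_const (hH m)).mem_nhds
        fun h => (h1 _ _ _ _ h hi).elim (Finset.ne_of_mem_erase hm) fun e => h3 (e ▸ rfl)
    obtain ⟨a', ha', b', hb', hab', h5, h6⟩ := c2 b hb _ (inter_mem h4 bJ)
    refine h6 (c3 a' ha' b' hb' hab' i (H i a) fun u hu hu' => ?_)
    obtain ⟨m, m1, m2⟩ := hn a ⟨ha, aJ⟩ u ⟨hu, (h5 hu').2⟩
    by_cases e : m = i
    · exact (e ▸ m2).symm
    · exact ((h5 hu').1 m (Finset.mem_erase.2 ⟨e, m1⟩) m2).elim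
  have c5 : K = ∅ := by
    by_contra hK
    obtain ⟨x0, hx0⟩ := nonempty_iff_ne_empty.2 hK
    let T := {S : Set ℝ // IsCompact S ∧ ∃ x ∈ K, S ∈ 𝓝 x}
    have st : ∀ τ : T, ∃ u : Bool → T, (∀ b, (u b).1 ⊆ τ.1) ∧
        ∀ y ∈ (u false).1, ∀ z ∈ (u true).1, ∀ i ∈ N, H i y ≠ H i z := by
      rintro ⟨S, hS, x, hx, hx'⟩
      obtain ⟨y, hy, z, hz, h⟩ := c4 x hx _ (interior_mem_nhds.2 hx')
      have h2 : ∀ᶠ p : ℝ × ℝ in 𝓝 y ×ˢ 𝓝 z, ∀ i ∈ N, H i p.1 ≠ H i p.2 := by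
        rw [← nhds_prod_eq]
        exact (eventually_all_finset _).2 fun i hi => (isOpen_ne_fun ((hH i).comp continuous_fst)
          ((hH i).comp continuous_snd)).mem_nhds (h i hi)
      obtain ⟨U, hU, V, hV, h3⟩ := mem_prod_iff.1 h2
      obtain ⟨U', u1, u2, u3⟩ := local_compact_nhds (inter_mem hU
        (mem_interior_iff_mem_nhds.1 hy.2))
      obtain ⟨V', v1, v2, v3⟩ := local_compact_nhds (inter_mem hV
        (mem_interior_iff_mem_nhds.1 hz.2))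
      refine ⟨fun b => cond b ⟨V', v3, z, hz.1, v1⟩ ⟨U', u3, y, hy.1, u1⟩, fun b => ?_,
        fun y hy z hz => @h3 (y, z) ⟨(u2 hy).1, (v2 hz).1⟩⟩
      cases b
      exacts [fun _ h => (u2 h).2, fun _ h => (v2 h).2]
    choose u u1 u2 using st
    let τ : (ℕ → Bool) → ℕ → T := fun σ n => Nat.rec
      ⟨Icc (x0 - 1) (x0 + 1), isCompact_Icc, x0, hx0, Icc_mem_nhds (by simp) (by simp)⟩
      (fun n τ => u τ (σ n)) n
    have t1 : ∀ σ, (⋂ n, (τ σ n).1).Nonempty := fun σ =>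
      IsCompact.nonempty_iInter_of_sequence_nonempty_isCompact_isClosed _ (fun n => u1 _ _)
        (fun n => (τ σ n).2.2.elim fun x h => ⟨x, mem_of_mem_nhds h.2⟩) (τ σ 0).2.1
        fun n => (τ σ n).2.1.isClosed
    choose x hx using t1
    refine hc.not_ge (le_trans (by simp) (mk_le_of_injective (f := fun σ => ℓ (x σ))
      fun σ σ' h => ?_))
    have h2 : ¬ ∀ i ∈ N, H i (x σ) ≠ H i (x σ') := fun h2 => by
      have h3 := ((e1 _ _).1 rfl).trans ((e1 _ _).1 h.symm).symm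
      by_cases e : (ℓ (x σ)).1 ∈ N
      · exact h2 _ e h3
      · exact h2 0 h0 (by rw [hN _ e h3])
    have h3 : ∀ n, τ σ n = τ σ' n → σ n = σ' n := fun n e => by
      by_contra hn
      have m1 : x σ ∈ (u (τ σ n) (σ n)).1 := mem_iInter.1 (hx σ) (n + 1)
      have m2 : x σ' ∈ (u (τ σ' n) (σ' n)).1 := mem_iInter.1 (hx σ') (n + 1)
      rw [← e] at m2
      cases h4 : σ n <;> cases h5 : σ' n <;> rw [h4] at m1 hn <;> rw [h5] at m2 hn
      exacts [hn rfl, h2 (u2 _ _ m1 _ m2), h2 fun i hi => (u2 _ _ m2 _ m1 i hi).symm, hn rfl]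
    have h4 : ∀ n, τ σ n = τ σ' n := fun n => by
      induction n with
      | zero => rfl
      | succ n ih => exact congrArg₂ u ih (h3 n ih)
    exact funext fun n => h3 n (h4 n)
  have := c1 (min s t) (max s t) (fun t _ h => c5.subset h) s ⟨min_le_left _ _, le_max_left _ _⟩
    t ⟨min_le_right _ _, le_max_right _ _⟩
  exact ⟨congrArg Prod.fst this, congrArg (fun a => a.2.1) this⟩

theorem plane (F : ℝ × ℝ → ℝ × ℝ) {C : NNReal} (hF : LipschitzWith C F) (A Z : Set (ℝ × ℝ))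
    (hA : #A < 𝔠) (hZ : #Z < 𝔠) (h : ∀ y ∉ Z, ∃! n : ℤ, F y - (n : ℝ) • y ∈ A) :
    ∃ (n : ℤ) (g : ℝ × ℝ), ∀ y, F y = (n : ℝ) • y + g := by
  choose! lab l1 l2 using h
  have ln : ∀ x y, (∀ t : ℝ, x + t • (y - x) ∉ Z) → lab x = lab y ∧
      F x - (lab x : ℝ) • x = F y - (lab y : ℝ) • y := fun x y hxy => by
    rcases eq_or_ne x y with rfl | hne
    · exact ⟨rfl, rfl⟩
    have hu := sub_ne_zero.2 hne.symm
    have hc := hF.continuous
    have := line (fun n t => F (x + t • (y - x)) - (n : ℝ) • (x + t • (y - x)))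
      (fun n => by fun_prop) (fun m n s t h1 h2 => by
        have : (((m : ℝ) - n) * (s - t)) • (y - x) = 0 := by linear_combination (norm := module) h2 - h1
        rcases mul_eq_zero.1 ((smul_eq_zero.1 this).resolve_right hu) with h | h
        · exact .inl (by exact_mod_cast sub_eq_zero.1 h)
        · exact .inr (sub_eq_zero.1 h))
      (Finset.Icc (-⌈(C : ℝ)⌉) ⌈(C : ℝ)⌉) (fun n hn s t h1 => by
        have h2 := hF.dist_le_mul (x + s • (y - x)) (x + t • (y - x))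
        have h3 : F (x + s • (y - x)) - F (x + t • (y - x)) =
            (n : ℝ) • ((s - t) • (y - x)) := by linear_combination (norm := module) h1
        rw [dist_eq_norm, dist_eq_norm, h3, norm_smul, show x + s • (y - x) - (x + t • (y - x)) =
          (s - t) • (y - x) by module] at h2
        by_contra hst
        have h4 := le_of_mul_le_mul_right h2
          (norm_pos_iff.2 (smul_ne_zero (sub_ne_zero.2 hst) hu))
        have h5 : |n| ≤ ⌈(C : ℝ)⌉ := by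
          have := h4.trans (Int.le_ceil _)
          rw [Real.norm_eq_abs] at this
          exact_mod_cast this
        exact hn (Finset.mem_Icc.2 (abs_le.1 h5)))
      (by simp [Int.ceil_nonneg]) A hA (fun t => lab (x + t • (y - x)))
      (fun t n => ⟨l2 _ (hxy t) n, fun e => e ▸ l1 _ (hxy t)⟩) 0 1
    simpa using this
  have big : ∀ (S : Set ℝ) (a b : ℝ), #S < 𝔠 → a < b → ∃ s ∈ Icc a b, s ∉ S := by
    intro S a b hS hab
    by_contra hn
    push Not at hn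
    exact hS.not_ge ((mk_Icc_real hab).ge.trans (mk_le_mk_of_subset hn))
  have gd : ∀ x ∉ Z, ∀ y ∉ Z, lab x = lab y ∧
      F x - (lab x : ℝ) • x = F y - (lab y : ℝ) • y := fun x hx y hy => by
    let φ : ℝ × ℝ → ℝ × ℝ → ℝ := fun x' b =>
      x'.1 + (b.1 - x'.1) * (max x.2 y.2 + 1 - x'.2) / (b.2 - x'.2)
    obtain ⟨s, -, hs⟩ := big (φ x '' Z ∪ φ y '' Z) 0 1 ((mk_union_le _ _).trans_lt
      (add_lt_of_lt aleph0_le_continuum (mk_image_le.trans_lt hZ) (mk_image_le.trans_lt hZ)))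
      zero_lt_one
    have key : ∀ x' ∉ Z, x'.2 ≤ max x.2 y.2 → s ∉ φ x' '' Z →
        ∀ t : ℝ, x' + t • ((s, max x.2 y.2 + 1) - x') ∉ Z := fun x' h1 h2 h3 t h4 => by
      rcases eq_or_ne t 0 with rfl | ht
      · exact h1 (by simpa using h4)
      refine h3 ⟨_, h4, ?_⟩
      have : max x.2 y.2 + 1 - x'.2 ≠ 0 := by linarith
      simp only [φ, Prod.fst_add, Prod.snd_add, Prod.smul_fst, Prod.smul_snd, Prod.fst_sub,
        Prod.snd_sub, smul_eq_mul, add_sub_cancel_left]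
      field_simp
      ring
    have h1 := ln x _ (key x hx (le_max_left _ _) fun h => hs (.inl h))
    have h2 := ln y _ (key y hy (le_max_right _ _) fun h => hs (.inr h))
    exact ⟨h1.1.trans h2.1.symm, h1.2.trans h2.2.symm⟩
  have dn : Dense Zᶜ := by
    refine Metric.dense_iff.2 fun x r hr => ?_
    obtain ⟨s, s1, s2⟩ := big (Prod.fst '' Z) x.1 (x.1 + r / 2) (mk_image_le.trans_lt hZ)
      (by linarith)
    refine ⟨(s, x.2), ?_, fun h => s2 ⟨_, h, rfl⟩⟩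
    rw [Metric.mem_ball, Prod.dist_eq, dist_self, Real.dist_eq, abs_of_nonneg (by linarith [s1.1])]
    exact max_lt (by linarith [s1.2]) hr
  obtain ⟨x, hx⟩ := dn.nonempty
  refine ⟨lab x, F x - (lab x : ℝ) • x, congrFun (Continuous.ext_on dn hF.continuous
    (by fun_prop) fun y hy => ?_)⟩
  obtain ⟨h1, h2⟩ := gd x hx y hy
  rw [h2, h1]
  simp

end Pool.Agent.H.MP_f81d0d_gt
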